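import Pool.Agent.Helper78.CE.Near

set_option autoImplicit false

/-!
MP_c5257f_an, part 5: the Baire category argument.
-/

namespace Pool.Agent.Helper78.CE

open Filter Topology Metric

variable {E : Type*} [NormedAddCommGroup E] [InnerProductSpace ℂ E]

/-- the hypotheses on the three sets -/
def Sep (V0 V1 V2 : Set E) : Prop :=
  (0 : E) ∉ V1 ∧ (∀ x ∈ V0, ∀ z ∈ V1, LinearIndependent ℂ ![x, z]) ∧
    ∀ x ∈ V2, ∀ z ∈ V1, LinearIndependent ℂ ![x, z]

theorem dense_compl_bad [FiniteDimensional ℂ E] {V0 V1 V2 : Set E}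
    (k0 : IsCompact V0) (k1 : IsCompact V1) (k2 : IsCompact V2) (hs : Sep V0 V1 V2)
    {c : ℝ} (hc : 0 < c) : Dense {N : NN E | ¬ Bad V0 V1 V2 c N.1} := by
  intro N
  have h : ∀ j : ℕ, ∃ N' : NN E, (∀ x, |N'.1 x - N.1 x| ≤ 1 / ((j : ℝ) + 1) * ‖x‖) ∧
      ¬ Bad V0 V1 V2 c N'.1 := by
    intro j
    obtain ⟨N', h1, h2, h3⟩ := exists_near N.2 k0 k1 k2 hs.1 hs.2.1 hs.2.2 hc
      (ε := 1 / ((j : ℝ) + 1)) (by positivity)
    exact ⟨⟨N', h1⟩, h2, h3⟩
  choose N' h1 h2 using h
  refine mem_closure_of_tendsto (f := N') (b := atTop) ?_ (Eventually.of_forall h2)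
  rw [tendsto_subtype_rng, tendsto_pi_nhds]
  intro x
  rw [tendsto_iff_dist_tendsto_zero]
  refine squeeze_zero (fun _ => dist_nonneg) (fun j => h1 j x) ?_
  have h3 := (tendsto_one_div_add_atTop_nhds_zero_nat (𝕜 := ℝ)).mul_const ‖x‖
  rwa [zero_mul] at h3

/-- the good norms: no unimodular-free chain of length three -/
def Good (N : E → ℝ) : Prop :=
  ∀ a : E →L[ℂ] E, (∀ y, N (a y) ≤ N y) → ∀ x, N x = 1 → N (a (a (a x))) = 1 →
    ∃ (l : ℂ) (v : E), ‖l‖ = 1 ∧ v ≠ 0 ∧ a v = l • v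

theorem good_of_forall_not_bad [FiniteDimensional ℂ E] (s : ℕ → E) (hs : DenseRange s)
    {N : E → ℝ} (hN : IsN N)
    (h : ∀ (k0 k1 k2 m : ℕ), Sep (closedBall (s k0) (1 / ((m : ℝ) + 1)))
        (closedBall (s k1) (1 / ((m : ℝ) + 1))) (closedBall (s k2) (1 / ((m : ℝ) + 1))) →
      ¬ Bad (closedBall (s k0) (1 / ((m : ℝ) + 1))) (closedBall (s k1) (1 / ((m : ℝ) + 1)))
        (closedBall (s k2) (1 / ((m : ℝ) + 1))) (1 / ((m : ℝ) + 1)) N) : Good N := by
  intro a ha x hx hx3
  by_contra hno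
  push Not at hno
  obtain ⟨ψ3, hψ, hψx⟩ := exists_norming hN.toIsSN (a (a (a x)))
  rw [hx3, Complex.ofReal_one] at hψx
  set ψ : E →L[ℂ] ℂ := ψ3.comp a with hψdef
  have hψa : ∀ y, ψ y = ψ3 (a y) := fun y => rfl
  have hN1 : N (a x) = 1 := by
    refine le_antisymm (hx ▸ ha x) ?_
    calc 1 = N (a (a (a x))) := hx3.symm
      _ ≤ N (a x) := (ha _).trans (ha _)
  have hN2 : N (a (a x)) = 1 := by
    refine le_antisymm (hN1 ▸ ha (a x)) ?_
    calc 1 = N (a (a (a x))) := hx3.symm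
      _ ≤ N (a (a x)) := ha _
  have hne : ∀ y : E, N y = 1 → y ≠ 0 := by
    intro y hy h0
    rw [h0, hN.map_zero] at hy
    exact zero_ne_one hy
  -- no consecutive proportional vectors
  have hprop : ∀ y : E, N y = 1 → N (a y) = 1 → LinearIndependent ℂ ![y, a y] := by
    intro y hy hay
    rw [LinearIndependent.pair_iff' (hne y hy)]
    intro l hl
    refine hno l y ?_ (hne y hy) hl.symm
    rw [← hl, hN.smul, hy, mul_one] at hay
    exact hay
  have hL0 : LinearIndependent ℂ ![x, a x] := hprop x hx hN1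
  have hL2 : LinearIndependent ℂ ![a (a x), a x] :=
    LinearIndependent.pair_symm_iff.1 (hprop (a x) hN1 hN2)
  -- `a²` has rank one
  have hrank : ∀ d, ψ (a (a d)) = 0 → a (a d) = 0 := by
    intro d hd
    by_contra hne0
    have hd0 : d ≠ 0 := by
      intro h0
      rw [h0, map_zero, map_zero] at hne0
      exact hne0 rfl
    have hdn : 0 < ‖d‖ := norm_pos_iff.2 hd0
    set d' : E := ((‖d‖ : ℂ))⁻¹ • d with hd'
    have hd'n : ‖d'‖ = 1 := by
      rw [hd', norm_smul, norm_inv, Complex.norm_real, norm_norm, inv_mul_cancel₀ hdn.ne']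
    have hd'a : a (a d') = ((‖d‖ : ℂ))⁻¹ • a (a d) := by rw [hd', map_smul, map_smul]
    have hd'ψ : ψ (a (a d')) = 0 := by rw [hd'a, map_smul, hd, smul_zero]
    have hc0 : 0 < ‖a (a d')‖ := by
      rw [norm_pos_iff, hd'a]
      refine smul_ne_zero (inv_ne_zero ?_) hne0
      exact_mod_cast hdn.ne'
    -- neighbourhoods
    have hopen : IsOpen {p : E × E | LinearIndependent ℂ ![p.1, p.2]} := by
      have h1 : Continuous (fun p : E × E => (![p.1, p.2] : Fin 2 → E)) := by
        refine continuous_pi fun i => ?_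
        fin_cases i
        · exact continuous_fst
        · exact continuous_snd
      exact (isOpen_setOfPred_linearIndependent (𝕜 := ℂ) (E := E) (ι := Fin 2)).preimage h1
    obtain ⟨r0, hr0, hb0⟩ := Metric.isOpen_iff.1 hopen (x, a x) hL0
    obtain ⟨r2, hr2, hb2⟩ := Metric.isOpen_iff.1 hopen (a (a x), a x) hL2
    set r := min (min r0 r2) ‖a x‖ with hr
    have hax : 0 < ‖a x‖ := norm_pos_iff.2 (hne _ hN1)
    have hrpos : 0 < r := lt_min (lt_min hr0 hr2) hax
    obtain ⟨m, hm⟩ := exists_nat_one_div_lt (K := ℝ) (ε := min (r / 2) ‖a (a d')‖)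
      (lt_min (by positivity) hc0)
    set ρ : ℝ := 1 / ((m : ℝ) + 1) with hρ
    have hρ0 : 0 < ρ := by positivity
    have hm1 : ρ < r / 2 := hm.trans_le (min_le_left _ _)
    have hm2 : ρ < ‖a (a d')‖ := hm.trans_le (min_le_right _ _)
    have hk : ∀ y : E, ∃ k, y ∈ closedBall (s k) ρ ∧ closedBall (s k) ρ ⊆ ball y r := by
      intro y
      obtain ⟨k, hk⟩ := hs.exists_dist_lt y hρ0
      refine ⟨k, ?_, ?_⟩
      · rw [mem_closedBall]
        exact hk.le
      · intro w hw
        rw [mem_closedBall] at hw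
        rw [mem_ball]
        calc dist w y ≤ dist w (s k) + dist (s k) y := dist_triangle _ _ _
          _ = dist w (s k) + dist y (s k) := by rw [dist_comm (s k) y]
          _ < r := by linarith
    obtain ⟨k0, hk0, hk0'⟩ := hk x
    obtain ⟨k1, hk1, hk1'⟩ := hk (a x)
    obtain ⟨k2, hk2, hk2'⟩ := hk (a (a x))
    refine h k0 k1 k2 m ⟨?_, ?_, ?_⟩ ⟨a, x, ψ, d', ha, hx.le, ?_, ?_, hk0, hk1, hk2, hd'ψ, hd'n.le,
      hm2.le⟩
    · intro h0
      have h1 := hk1' h0
      rw [mem_ball, dist_comm, dist_zero_right] at h1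
      exact absurd (h1.trans_le (min_le_right _ _)) (lt_irrefl _)
    · intro w hw z hz
      have h1 : (w, z) ∈ ball ((x, a x) : E × E) r0 := by
        rw [mem_ball, Prod.dist_eq, max_lt_iff]
        exact ⟨(hk0' hw).trans_le ((min_le_left _ _).trans (min_le_left _ _)),
          (hk1' hz).trans_le ((min_le_left _ _).trans (min_le_left _ _))⟩
      exact hb0 h1
    · intro w hw z hz
      have h1 : (w, z) ∈ ball ((a (a x), a x) : E × E) r2 := by
        rw [mem_ball, Prod.dist_eq, max_lt_iff]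
        exact ⟨(hk2' hw).trans_le ((min_le_left _ _).trans (min_le_right _ _)),
          (hk1' hz).trans_le ((min_le_left _ _).trans (min_le_right _ _))⟩
      exact hb2 h1
    · intro y
      rw [hψa]
      exact (hψ _).trans (ha y)
    · rw [hψa]
      exact hψx
  -- conclusion
  have h1 : a (a (a x)) = ψ (a (a (a x))) • a (a x) := by
    have h2 := hrank (a x - ψ (a (a (a x))) • x) (by
      simp only [map_sub, map_smul, smul_eq_mul]
      rw [hψa (a (a x)), hψx, mul_one, sub_self])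
    simp only [map_sub, map_smul] at h2
    exact sub_eq_zero.1 h2
  refine hno (ψ (a (a (a x)))) (a (a x)) ?_ (hne _ hN2) h1
  have h2 := hx3
  rw [h1, hN.smul, hN2, mul_one] at h2
  exact h2

/-- The good norms form a residual set. -/
theorem good_residual [FiniteDimensional ℂ E] : {N : NN E | Good N.1} ∈ residual (NN E) := by
  have : ProperSpace E := FiniteDimensional.proper ℂ E
  obtain ⟨s, hs⟩ := TopologicalSpace.exists_dense_seq E
  set G : ℕ × ℕ × ℕ × ℕ → Set (NN E) := fun k =>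
    {N | Sep (closedBall (s k.1) (1 / ((k.2.2.2 : ℝ) + 1)))
        (closedBall (s k.2.1) (1 / ((k.2.2.2 : ℝ) + 1)))
        (closedBall (s k.2.2.1) (1 / ((k.2.2.2 : ℝ) + 1))) →
      ¬ Bad (closedBall (s k.1) (1 / ((k.2.2.2 : ℝ) + 1)))
        (closedBall (s k.2.1) (1 / ((k.2.2.2 : ℝ) + 1)))
        (closedBall (s k.2.2.1) (1 / ((k.2.2.2 : ℝ) + 1))) (1 / ((k.2.2.2 : ℝ) + 1)) N.1} with hG
  have hGo : ∀ k, IsOpen (G k) ∧ Dense (G k) := by
    intro k
    by_cases hsep : Sep (closedBall (s k.1) (1 / ((k.2.2.2 : ℝ) + 1)))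
        (closedBall (s k.2.1) (1 / ((k.2.2.2 : ℝ) + 1)))
        (closedBall (s k.2.2.1) (1 / ((k.2.2.2 : ℝ) + 1)))
    · have h1 : G k = {N : NN E | ¬ Bad (closedBall (s k.1) (1 / ((k.2.2.2 : ℝ) + 1)))
        (closedBall (s k.2.1) (1 / ((k.2.2.2 : ℝ) + 1)))
        (closedBall (s k.2.2.1) (1 / ((k.2.2.2 : ℝ) + 1))) (1 / ((k.2.2.2 : ℝ) + 1)) N.1} := by
        ext N
        simp only [hG, Set.mem_ofPred_eq]
        exact ⟨fun h => h hsep, fun h _ => h⟩
      rw [h1]
      refine ⟨?_, ?_⟩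
      · exact (isClosed_bad isClosed_closedBall isClosed_closedBall isClosed_closedBall _).isOpen_compl
      · exact dense_compl_bad (isCompact_closedBall _ _) (isCompact_closedBall _ _)
          (isCompact_closedBall _ _) hsep (by positivity)
    · have h1 : G k = Set.univ := by
        ext N
        simp only [hG, Set.mem_ofPred_eq, Set.mem_univ, iff_true]
        exact fun h => absurd h hsep
      rw [h1]
      exact ⟨isOpen_univ, dense_univ⟩
  have h2 : (⋂ k, G k) ∈ residual (NN E) :=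
    countable_iInter_mem.2 fun k => residual_of_dense_open (hGo k).1 (hGo k).2
  refine mem_of_superset h2 ?_
  intro N hN
  refine good_of_forall_not_bad s hs N.2 ?_
  intro k0 k1 k2 m
  exact Set.mem_iInter.1 hN (k0, k1, k2, m)

/-- Existence of a good norm. -/
theorem exists_good [FiniteDimensional ℂ E] : ∃ N : E → ℝ, IsN N ∧ Good N := by
  have h1 : IsN (fun x : E => ‖x‖) := by
    refine ⟨⟨norm_add_le, fun c x => norm_smul c x⟩, fun x => le_rfl, fun x => ?_⟩
    have := norm_nonneg x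
    linarith
  have : Nonempty (NN E) := ⟨⟨_, h1⟩⟩
  obtain ⟨N, hN⟩ := (dense_of_mem_residual (good_residual (E := E))).nonempty
  exact ⟨N.1, N.2, hN⟩

end Pool.Agent.Helper78.CE
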