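import Mathlib

set_option autoImplicit false

/-!
MP_c5257f_an, part 1: the compact space of norms, bad sets are closed.
-/

namespace Pool.Agent.Helper78.CE

open Filter Topology Metric

variable {E : Type*} [NormedAddCommGroup E] [InnerProductSpace ℂ E]

/-- `N` is subadditive and absolutely homogeneous. -/
structure IsSN (N : E → ℝ) : Prop where
  add_le : ∀ x y, N (x + y) ≤ N x + N y
  smul : ∀ (c : ℂ) x, N (c • x) = ‖c‖ * N x

/-- `N` is a norm lying between the Euclidean norm and twice the Euclidean norm. -/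
structure IsN (N : E → ℝ) : Prop extends IsSN N where
  lower : ∀ x, ‖x‖ ≤ N x
  upper : ∀ x, N x ≤ 2 * ‖x‖

namespace IsSN

theorem map_zero {N : E → ℝ} (h : IsSN N) : N 0 = 0 := by
  have := h.smul 0 0
  simpa using this

theorem neg {N : E → ℝ} (h : IsSN N) (x : E) : N (-x) = N x := by
  have := h.smul (-1) x
  simpa using this

theorem nonneg {N : E → ℝ} (h : IsSN N) (x : E) : 0 ≤ N x := by
  have h1 := h.add_le x (-x)
  rw [add_neg_cancel, h.map_zero, h.neg] at h1
  linarith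

theorem sub_le {N : E → ℝ} (h : IsSN N) (x y : E) : N x - N y ≤ N (x - y) := by
  have h1 := h.add_le (x - y) y
  rw [sub_add_cancel] at h1
  linarith

theorem sub_rev {N : E → ℝ} (h : IsSN N) (x y : E) : N (x - y) = N (y - x) := by
  rw [← h.neg (x - y), neg_sub]

theorem abs_sub_le {N : E → ℝ} (h : IsSN N) (x y : E) : |N x - N y| ≤ N (x - y) := by
  rw [abs_le]
  constructor
  · have := h.sub_le y x
    rw [h.sub_rev y x] at this
    linarith
  · exact h.sub_le x y

theorem continuous {N : E → ℝ} (h : IsSN N) {M : ℝ} (hM : ∀ x, N x ≤ M * ‖x‖) :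
    Continuous N := by
  have hM0 : LipschitzWith (Real.toNNReal M) N := by
    apply LipschitzWith.of_dist_le_mul
    intro x y
    rw [Real.dist_eq, dist_eq_norm]
    refine (h.abs_sub_le x y).trans ((hM _).trans ?_)
    gcongr
    exact Real.le_coe_toNNReal M
  exact hM0.continuous

/-- real scalars -/
theorem smul_real {N : E → ℝ} (h : IsSN N) (t : ℝ) (x : E) : N ((t : ℂ) • x) = |t| * N x := by
  rw [h.smul]
  simp

/-- as a seminorm -/
noncomputable def toSeminorm {N : E → ℝ} (h : IsSN N) : Seminorm ℂ E := Seminorm.of N h.add_le h.smul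

end IsSN

theorem IsN.continuous {N : E → ℝ} (h : IsN N) : Continuous N :=
  h.toIsSN.continuous h.upper

theorem IsN.pos {N : E → ℝ} (h : IsN N) {x : E} (hx : x ≠ 0) : 0 < N x :=
  lt_of_lt_of_le (norm_pos_iff.2 hx) (h.lower x)

variable (E) in
/-- the space of norms between `‖·‖` and `2‖·‖`, with the topology of pointwise convergence -/
abbrev NN : Type _ := {N : E → ℝ // IsN N}

theorem isClosed_isN : IsClosed {N : E → ℝ | IsN N} := by
  have h : {N : E → ℝ | IsN N} =
      ((⋂ x : E, ⋂ y : E, {N : E → ℝ | N (x + y) ≤ N x + N y}) ∩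
        (⋂ c : ℂ, ⋂ x : E, {N : E → ℝ | N (c • x) = ‖c‖ * N x})) ∩
      ((⋂ x : E, {N : E → ℝ | ‖x‖ ≤ N x}) ∩ (⋂ x : E, {N : E → ℝ | N x ≤ 2 * ‖x‖})) := by
    ext N
    simp only [Set.mem_ofPred_eq, Set.mem_inter_iff, Set.mem_iInter]
    constructor
    · intro h
      exact ⟨⟨h.add_le, h.smul⟩, h.lower, h.upper⟩
    · rintro ⟨⟨h1, h2⟩, h3, h4⟩
      exact ⟨⟨h1, h2⟩, h3, h4⟩
  rw [h]
  refine IsClosed.inter (IsClosed.inter ?_ ?_) (IsClosed.inter ?_ ?_)
  · refine isClosed_iInter fun x => isClosed_iInter fun y => ?_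
    exact isClosed_le (continuous_apply _) ((continuous_apply x).add (continuous_apply y))
  · refine isClosed_iInter fun x => isClosed_iInter fun y => ?_
    exact isClosed_eq (continuous_apply _) (continuous_const.mul (continuous_apply _))
  · refine isClosed_iInter fun x => ?_
    exact isClosed_le continuous_const (continuous_apply x)
  · refine isClosed_iInter fun x => ?_
    exact isClosed_le (continuous_apply x) continuous_const

instance : CompactSpace (NN E) := by
  refine isCompact_iff_compactSpace.1 (IsCompact.of_isClosed_subset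
    (isCompact_univ_pi (fun x : E => isCompact_Icc (a := (0 : ℝ)) (b := 2 * ‖x‖)))
    isClosed_isN ?_)
  intro N hN
  simp only [Set.mem_pi, Set.mem_univ, forall_true_left, Set.mem_Icc]
  intro x
  exact ⟨IsSN.nonneg (IsN.toIsSN hN) x, IsN.upper hN x⟩

theorem continuous_ev : Continuous (fun p : NN E × E => p.1.1 p.2) := by
  rw [continuous_iff_continuousAt]
  rintro ⟨N, x⟩
  rw [ContinuousAt, tendsto_iff_dist_tendsto_zero]
  have h1 : ∀ p : NN E × E, dist (p.1.1 p.2) (N.1 x) ≤ 2 * ‖p.2 - x‖ + |p.1.1 x - N.1 x| := by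
    intro p
    rw [Real.dist_eq]
    calc |p.1.1 p.2 - N.1 x| = |(p.1.1 p.2 - p.1.1 x) + (p.1.1 x - N.1 x)| := by ring_nf
      _ ≤ |p.1.1 p.2 - p.1.1 x| + |p.1.1 x - N.1 x| := abs_add_le _ _
      _ ≤ 2 * ‖p.2 - x‖ + |p.1.1 x - N.1 x| := by
          gcongr
          exact (p.1.2.toIsSN.abs_sub_le _ _).trans (p.1.2.upper _)
  refine squeeze_zero (fun _ => dist_nonneg) h1 ?_
  have h2 : Continuous (fun p : NN E × E => 2 * ‖p.2 - x‖ + |p.1.1 x - N.1 x|) := by
    have h3 : Continuous (fun p : NN E × E => p.1.1 x) :=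
      (continuous_apply x).comp (continuous_subtype_val.comp continuous_fst)
    fun_prop
  have h4 := h2.tendsto (N, x)
  simpa using h4

/-- the bad property: a chain `x ↦ a x ↦ a (a x)` through the prescribed sets for a contraction `a`
such that `a²` is quantitatively of rank at least two -/
def Bad (V0 V1 V2 : Set E) (c : ℝ) (N : E → ℝ) : Prop :=
  ∃ (a : E →L[ℂ] E) (x : E) (ψ : E →L[ℂ] ℂ) (d : E),
    (∀ y, N (a y) ≤ N y) ∧ N x ≤ 1 ∧ (∀ y, ‖ψ y‖ ≤ N y) ∧ ψ (a (a x)) = 1 ∧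
    x ∈ V0 ∧ a x ∈ V1 ∧ a (a x) ∈ V2 ∧ ψ (a (a d)) = 0 ∧ ‖d‖ ≤ 1 ∧ c ≤ ‖a (a d)‖

theorem isClosed_bad [FiniteDimensional ℂ E] {V0 V1 V2 : Set E} (h0 : IsClosed V0)
    (h1 : IsClosed V1) (h2 : IsClosed V2) (c : ℝ) : IsClosed {N : NN E | Bad V0 V1 V2 c N.1} := by
  have : ProperSpace E := FiniteDimensional.proper ℂ E
  have : ProperSpace (E →L[ℂ] E) := FiniteDimensional.proper ℂ _
  have : ProperSpace (E →L[ℂ] ℂ) := FiniteDimensional.proper ℂ _
  set K : Set ((E →L[ℂ] E) × E × (E →L[ℂ] ℂ) × E) :=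
    closedBall 0 2 ×ˢ closedBall 0 1 ×ˢ closedBall 0 2 ×ˢ closedBall 0 1 with hK
  have hKc : IsCompact K :=
    (isCompact_closedBall _ _).prod ((isCompact_closedBall _ _).prod
      ((isCompact_closedBall _ _).prod (isCompact_closedBall _ _)))
  set Z : Set (NN E × ((E →L[ℂ] E) × E × (E →L[ℂ] ℂ) × E)) :=
    (⋂ y : E, {p | p.1.1 (p.2.1 y) ≤ p.1.1 y}) ∩
    ({p | p.1.1 p.2.2.1 ≤ 1} ∩
    ((⋂ y : E, {p | ‖p.2.2.2.1 y‖ ≤ p.1.1 y}) ∩
    ({p | p.2.2.2.1 (p.2.1 (p.2.1 p.2.2.1)) = 1} ∩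
    ({p | p.2.2.1 ∈ V0} ∩
    ({p | p.2.1 p.2.2.1 ∈ V1} ∩
    ({p | p.2.1 (p.2.1 p.2.2.1) ∈ V2} ∩
    ({p | p.2.2.2.1 (p.2.1 (p.2.1 p.2.2.2.2)) = 0} ∩
    ({p | ‖p.2.2.2.2‖ ≤ 1} ∩
    {p | c ≤ ‖p.2.1 (p.2.1 p.2.2.2.2)‖})))))))) with hZ
  have hev : ∀ (f : NN E × ((E →L[ℂ] E) × E × (E →L[ℂ] ℂ) × E) → E), Continuous f →
      Continuous (fun p : NN E × ((E →L[ℂ] E) × E × (E →L[ℂ] ℂ) × E) => p.1.1 (f p)) :=
    fun f hf => continuous_ev.comp (continuous_fst.prodMk hf)
  have hA : Continuous (fun p : NN E × ((E →L[ℂ] E) × E × (E →L[ℂ] ℂ) × E) => p.2.1) := by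
    fun_prop
  have hX : Continuous (fun p : NN E × ((E →L[ℂ] E) × E × (E →L[ℂ] ℂ) × E) => p.2.2.1) := by
    fun_prop
  have hP : Continuous (fun p : NN E × ((E →L[ℂ] E) × E × (E →L[ℂ] ℂ) × E) => p.2.2.2.1) := by
    fun_prop
  have hD : Continuous (fun p : NN E × ((E →L[ℂ] E) × E × (E →L[ℂ] ℂ) × E) => p.2.2.2.2) := by
    fun_prop
  have hAX := hA.clm_apply hX
  have hAAX := hA.clm_apply hAX
  have hAAD := hA.clm_apply (hA.clm_apply hD)
  have hZc : IsClosed Z := by
    refine IsClosed.inter ?_ (IsClosed.inter ?_ (IsClosed.inter ?_ (IsClosed.inter ?_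
      (IsClosed.inter ?_ (IsClosed.inter ?_ (IsClosed.inter ?_ (IsClosed.inter ?_
      (IsClosed.inter ?_ ?_))))))))
    · exact isClosed_iInter fun y => isClosed_le (hev _ (hA.clm_apply continuous_const))
        (hev _ continuous_const)
    · exact isClosed_le (hev _ hX) continuous_const
    · exact isClosed_iInter fun y => isClosed_le (hP.clm_apply continuous_const).norm
        (hev _ continuous_const)
    · exact isClosed_eq (hP.clm_apply hAAX) continuous_const
    · exact h0.preimage hX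
    · exact h1.preimage hAX
    · exact h2.preimage hAAX
    · exact isClosed_eq (hP.clm_apply hAAD) continuous_const
    · exact isClosed_le hD.norm continuous_const
    · exact isClosed_le continuous_const hAAD.norm
  have hcomp : IsCompact (Z ∩ (Set.univ ×ˢ K)) :=
    (isCompact_univ.prod hKc).inter_left hZc
  have himg : {N : NN E | Bad V0 V1 V2 c N.1} = Prod.fst '' (Z ∩ (Set.univ ×ˢ K)) := by
    ext N
    constructor
    · rintro ⟨a, x, ψ, d, c1, c2, c3, c4, c5, c6, c7, c8, c9, c10⟩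
      refine ⟨(N, (a, x, ψ, d)), ⟨?_, ?_⟩, rfl⟩
      · simp only [hZ, Set.mem_inter_iff, Set.mem_iInter, Set.mem_ofPred_eq]
        exact ⟨c1, c2, c3, c4, c5, c6, c7, c8, c9, c10⟩
      · simp only [hK, Set.mem_prod, Set.mem_univ, true_and, mem_closedBall_zero_iff]
        refine ⟨?_, (N.2.lower x).trans c2, ?_, c9⟩
        · refine ContinuousLinearMap.opNorm_le_bound _ (by norm_num) (fun y => ?_)
          exact (N.2.lower _).trans ((c1 y).trans (N.2.upper y))
        · refine ContinuousLinearMap.opNorm_le_bound _ (by norm_num) (fun y => ?_)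
          exact (c3 y).trans (N.2.upper y)
    · rintro ⟨⟨N', a, x, ψ, d⟩, ⟨hz, _⟩, rfl⟩
      simp only [hZ, Set.mem_inter_iff, Set.mem_iInter, Set.mem_ofPred_eq] at hz
      exact ⟨a, x, ψ, d, hz⟩
  rw [himg]
  exact (hcomp.image continuous_fst).isClosed

end Pool.Agent.Helper78.CE
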