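import Pool.Agent.Helper78.CE.Baire

set_option autoImplicit false

/-!
MP_c5257f_an, part 6: from good norms to normed spaces.
-/

namespace Pool.Agent.Helper78.CE

open Filter Topology Metric

theorem spectralRadius_eq_one {F : Type*} [NormedAddCommGroup F] [NormedSpace ℂ F] [Nontrivial F]
    [FiniteDimensional ℂ F] {a : F →L[ℂ] F} (ha : ‖a‖ ≤ 1) {l : ℂ} {v : F} (hl : ‖l‖ = 1)
    (hv : v ≠ 0) (hav : a v = l • v) : spectralRadius ℂ a = 1 := by
  have : CompleteSpace F := FiniteDimensional.complete ℂ F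
  refine le_antisymm ?_ ?_
  · refine (spectrum.spectralRadius_le_nnnorm (𝕜 := ℂ) a).trans ?_
    have h : ‖a‖₊ ≤ 1 := by exact_mod_cast ha
    exact_mod_cast h
  · have hmem : l ∈ spectrum ℂ a := by
      rw [spectrum.mem_iff]
      intro hu
      obtain ⟨u, hu⟩ := hu
      have h1 : (algebraMap ℂ (F →L[ℂ] F) l - a) v = 0 := by
        rw [Algebra.algebraMap_eq_smul_one]
        simp [hav]
      rw [← hu] at h1
      have h2 : ((u⁻¹ : (F →L[ℂ] F)ˣ) : F →L[ℂ] F) ((u : F →L[ℂ] F) v) = v := by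
        have h3 : ((u⁻¹ : (F →L[ℂ] F)ˣ) : F →L[ℂ] F) * (u : F →L[ℂ] F) = 1 := u.inv_mul
        exact congrArg (fun b : F →L[ℂ] F => b v) h3
      rw [h1, map_zero] at h2
      exact hv h2.symm
    have h1 : ((‖l‖₊ : NNReal) : ENNReal) ≤ spectralRadius ℂ a :=
      le_iSup₂ (f := fun (k : ℂ) (_ : k ∈ spectrum ℂ a) => ((‖k‖₊ : NNReal) : ENNReal)) l hmem
    have h2 : ‖l‖₊ = 1 := by
      apply NNReal.eq
      simpa using hl
    rw [h2] at h1
    exact_mod_cast h1

theorem exists_attain {F : Type*} [NormedAddCommGroup F] [NormedSpace ℂ F]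
    [FiniteDimensional ℂ F] {b : F →L[ℂ] F} (hb : ‖b‖ = 1) : ∃ x, ‖x‖ = 1 ∧ ‖b x‖ = 1 := by
  have : ProperSpace F := FiniteDimensional.proper ℂ F
  obtain ⟨x, hx, hmax⟩ := (isCompact_closedBall (0 : F) 1).exists_isMaxOn
    ⟨0, mem_closedBall_self zero_le_one⟩ (f := fun x => ‖b x‖) b.continuous.norm.continuousOn
  rw [mem_closedBall_zero_iff] at hx
  have h1 : ∀ y, ‖b y‖ ≤ ‖b x‖ * ‖y‖ := by
    intro y
    by_cases hy : y = 0
    · simp [hy]
    · have hy0 : 0 < ‖y‖ := norm_pos_iff.2 hy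
      have h2 : ((‖y‖ : ℂ)⁻¹ • y) ∈ closedBall (0 : F) 1 := by
        rw [mem_closedBall_zero_iff, norm_smul, norm_inv, Complex.norm_real, norm_norm,
          inv_mul_cancel₀ hy0.ne']
      have h3 := hmax h2
      simp only [Set.mem_ofPred_eq, map_smul, norm_smul, norm_inv, Complex.norm_real, norm_norm]
        at h3
      rwa [inv_mul_le_iff₀ hy0, mul_comm] at h3
  have h2 : ‖b‖ ≤ ‖b x‖ := b.opNorm_le_bound (norm_nonneg _) h1
  rw [hb] at h2
  have h3 := b.le_opNorm x
  rw [hb, one_mul] at h3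
  exact ⟨x, le_antisymm hx (h2.trans h3), le_antisymm (h3.trans hx) h2⟩

/-- `ℂⁿ` without a norm -/
def Cn (n : ℕ) : Type := Fin n → ℂ

noncomputable instance (n : ℕ) : AddCommGroup (Cn n) := inferInstanceAs (AddCommGroup (Fin n → ℂ))

noncomputable instance (n : ℕ) : Module ℂ (Cn n) := inferInstanceAs (Module ℂ (Fin n → ℂ))

/-- identification with the Euclidean space -/
noncomputable def en (n : ℕ) : Cn n ≃ₗ[ℂ] EuclideanSpace ℂ (Fin n) :=
  (WithLp.linearEquiv 2 ℂ (Fin n → ℂ)).symm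

theorem exists_space (n : ℕ) (hn : 1 ≤ n) :
    ∃ (F : Type) (_ : NormedAddCommGroup F) (_ : NormedSpace ℂ F),
      FiniteDimensional ℂ F ∧ Module.finrank ℂ F = n ∧
      ∀ a : F →L[ℂ] F, ‖a‖ ≤ 1 → ‖a ^ 3‖ = 1 → spectralRadius ℂ a = 1 := by
  obtain ⟨N, hN, hG⟩ := exists_good (E := EuclideanSpace ℂ (Fin n))
  let : Norm (Cn n) := ⟨fun x => N (en n x)⟩
  have hnorm : ∀ x : Cn n, ‖x‖ = N (en n x) := fun x => rfl
  have core : NormedSpace.Core ℂ (Cn n) :=
    { norm_nonneg := fun x => hN.nonneg _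
      norm_smul := fun c x => by rw [hnorm, hnorm, map_smul, hN.smul]
      norm_triangle := fun x y => by rw [hnorm, hnorm, hnorm, map_add]; exact hN.add_le _ _
      norm_eq_zero_iff := fun x => by
        rw [hnorm]
        constructor
        · intro h
          by_contra hx
          have h1 : en n x ≠ 0 := by
            intro h2
            exact hx ((en n).map_eq_zero_iff.1 h2)
          exact (hN.pos h1).ne' h
        · rintro rfl
          rw [map_zero, hN.map_zero] }
  let i1 : NormedAddCommGroup (Cn n) := NormedAddCommGroup.ofCore core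
  let i2 : NormedSpace ℂ (Cn n) := NormedSpace.ofCore core
  have hfd : FiniteDimensional ℂ (Cn n) := LinearEquiv.finiteDimensional (en n).symm
  have hrk : Module.finrank ℂ (Cn n) = n := by
    rw [LinearEquiv.finrank_eq (en n), finrank_euclideanSpace_fin]
  refine ⟨Cn n, i1, i2, hfd, hrk, ?_⟩
  have hnt : Nontrivial (Cn n) := by
    refine Module.nontrivial_of_finrank_pos (R := ℂ) ?_
    rw [hrk]
    exact hn
  intro a ha ha3
  set a' : EuclideanSpace ℂ (Fin n) →L[ℂ] EuclideanSpace ℂ (Fin n) :=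
    LinearMap.toContinuousLinearMap
      ((en n).toLinearMap ∘ₗ (a : Cn n →ₗ[ℂ] Cn n) ∘ₗ (en n).symm.toLinearMap) with ha'
  have ha'a : ∀ y, a' y = en n (a ((en n).symm y)) := fun y => rfl
  have hcontr : ∀ y, N (a' y) ≤ N y := by
    intro y
    have h1 := a.le_opNorm ((en n).symm y)
    have h2 : ‖(en n).symm y‖ = N y := by rw [hnorm, LinearEquiv.apply_symm_apply]
    rw [h2] at h1
    have h3 : ‖a ((en n).symm y)‖ = N (a' y) := by rw [hnorm, ha'a]
    rw [h3] at h1
    calc N (a' y) ≤ ‖a‖ * N y := h1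
      _ ≤ 1 * N y := by
          have := hN.nonneg y
          gcongr
      _ = N y := one_mul _
  obtain ⟨x, hx, hx3⟩ := exists_attain ha3
  have h3 : N (a' (a' (a' (en n x)))) = 1 := by
    rw [ha'a, ha'a, ha'a, LinearEquiv.symm_apply_apply, LinearEquiv.symm_apply_apply,
      LinearEquiv.symm_apply_apply, ← hnorm]
    exact hx3
  obtain ⟨l, v, hl, hv, hav⟩ := hG a' hcontr (en n x) ((hnorm x).symm.trans hx) h3
  have hv' : (en n).symm v ≠ 0 := by
    intro h
    exact hv ((en n).symm.map_eq_zero_iff.1 h)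
  refine spectralRadius_eq_one ha hl hv' ?_
  have h4 : en n (a ((en n).symm v)) = en n (l • (en n).symm v) := by
    rw [← ha'a, hav, map_smul, LinearEquiv.apply_symm_apply]
  exact (en n).injective h4

end Pool.Agent.Helper78.CE
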