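import Pool.Agent.Helper78.CE.Smooth

set_option autoImplicit false

/-!
MP_c5257f_an, part 3: a norm which is smooth near `V0`, strictly convex on `V2` and polyhedral near
`V1` is not bad; such norms are dense.
-/

namespace Pool.Agent.Helper78.CE

open Filter Topology Metric

variable {E : Type*} [NormedAddCommGroup E] [InnerProductSpace ℂ E]

/-- the key local argument -/
theorem not_bad {ι : Type*} {N1 N2 : E → ℝ} (h1 : IsSN N1) (h1c : Continuous N1) (_h2 : IsN N2)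
    {C c' : ℝ} (hC : ∀ x e, N1 (x + e) ^ 2 + N1 (x - e) ^ 2 - 2 * N1 x ^ 2 ≤ C * ‖e‖ ^ 2)
    (hc' : 0 < c') (hc : ∀ x e, c' * ‖e‖ ^ 2 ≤ N1 (x + e) ^ 2 + N1 (x - e) ^ 2 - 2 * N1 x ^ 2)
    (T : Finset ι) (g : ι → E →L[ℂ] ℂ) (hle : ∀ i ∈ T, ∀ x, ‖g i x‖ ≤ N2 x)
    (hle1 : ∀ x, N1 x ≤ N2 x)
    (hmax : ∀ x r, N1 x ≤ r → (∀ i ∈ T, ‖g i x‖ ≤ r) → N2 x ≤ r)
    {V0 V1 V2 : Set E} (hV0 : ∀ x ∈ V0, ∀ i ∈ T, ‖g i x‖ < N1 x)
    (hV2 : ∀ x ∈ V2, ∀ i ∈ T, ‖g i x‖ < N1 x)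
    (hV1 : ∀ x ∈ V1, ∃ i ∈ T, N1 x < ‖g i x‖) {c : ℝ} (hcpos : 0 < c) :
    ¬ Bad V0 V1 V2 c N2 := by
  rintro ⟨a, x, ψ, d, c1, c2, c3, c4, c5, c6, c7, c8, c9, c10⟩
  have hx2 : 1 ≤ N2 (a (a x)) := by
    have h := c3 (a (a x))
    rw [c4, norm_one] at h
    exact h
  have hx1 : N2 (a x) = 1 := le_antisymm ((c1 x).trans c2) (hx2.trans (c1 _))
  have hx0 : N2 x = 1 := le_antisymm c2 (hx1 ▸ c1 x)
  have hx2' : N2 (a (a x)) = 1 := le_antisymm (hx1 ▸ c1 (a x)) hx2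
  -- near `x` the two norms agree
  have hnear : ∀ᶠ y in 𝓝 x, N2 y ≤ N1 y := by
    have h : ∀ᶠ y in 𝓝 x, ∀ i ∈ T, ‖g i y‖ < N1 y := by
      rw [Filter.eventually_all_finset]
      intro i hi
      exact ((g i).continuous.norm.tendsto x).eventually_lt (h1c.tendsto x) (hV0 x c5 i hi)
    filter_upwards [h] with y hy
    exact hmax y (N1 y) le_rfl (fun i hi => (hy i hi).le)
  have hN1x : N1 x = 1 := le_antisymm (hx0 ▸ hle1 x) (hx0 ▸ hnear.self_of_nhds)
  -- second differences at `x`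
  have hsecond : ∀ e : E, ∀ᶠ t : ℝ in 𝓝 0,
      N2 (x + (t : ℂ) • e) + N2 (x - (t : ℂ) • e) ≤ 2 + C * ‖e‖ ^ 2 / 2 * t ^ 2 := by
    intro e
    have ht1 : Tendsto (fun t : ℝ => x + (t : ℂ) • e) (𝓝 0) (𝓝 x) := by
      have : Continuous (fun t : ℝ => x + (t : ℂ) • e) := by fun_prop
      simpa using this.tendsto 0
    have ht2 : Tendsto (fun t : ℝ => x - (t : ℂ) • e) (𝓝 0) (𝓝 x) := by
      have : Continuous (fun t : ℝ => x - (t : ℂ) • e) := by fun_prop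
      simpa using this.tendsto 0
    filter_upwards [ht1.eventually hnear, ht2.eventually hnear] with t h3 h4
    have h5 := hC x ((t : ℂ) • e)
    rw [hN1x, norm_smul, Complex.norm_real, mul_pow, Real.norm_eq_abs, sq_abs] at h5
    nlinarith [sq_nonneg (N1 (x + (t : ℂ) • e) - 1), sq_nonneg (N1 (x - (t : ℂ) • e) - 1)]
  -- active functionals vanish on `a d`
  have hact : ∀ i ∈ T, ‖g i (a x)‖ = 1 → g i (a d) = 0 := by
    intro i hi hi1
    by_contra hne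
    have hgx : g i (a x) ≠ 0 := by
      intro h0
      rw [h0, norm_zero] at hi1
      exact zero_ne_one hi1
    set w : ℂ := g i (a d) / g i (a x) with hw
    have hw0 : w ≠ 0 := div_ne_zero hne hgx
    have hwn : 0 < ‖w‖ := norm_pos_iff.2 hw0
    set u : ℂ := (‖w‖ : ℂ) / w with hu
    have huw : u * w = (‖w‖ : ℂ) := by
      rw [hu]; field_simp
    have h3 := hsecond (u • d)
    have h4 : ∀ᶠ t : ℝ in 𝓝[>] 0, ‖w‖ ≤ C * ‖u • d‖ ^ 2 / 2 * t := by
      filter_upwards [h3.filter_mono nhdsWithin_le_nhds, self_mem_nhdsWithin] with t ht htpos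
      have htpos' : (0 : ℝ) < t := htpos
      have h5 : N2 (a (x + (t : ℂ) • (u • d))) ≤ N2 (x + (t : ℂ) • (u • d)) := c1 _
      have h6 : 1 + t * ‖w‖ ≤ N2 (a (x + (t : ℂ) • (u • d))) := by
        refine le_trans (le_of_eq ?_) (hle i hi _)
        have h7 : g i (a (x + (t : ℂ) • (u • d))) = g i (a x) * (1 + (t * ‖w‖ : ℝ)) := by
          simp only [map_add, map_smul, smul_eq_mul]
          push_cast
          rw [← huw, hw]
          field_simp
        rw [h7, norm_mul, hi1, one_mul]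
        rw [show (1 : ℂ) + ((t * ‖w‖ : ℝ) : ℂ) = ((1 + t * ‖w‖ : ℝ) : ℂ) by push_cast; ring]
        rw [Complex.norm_real, Real.norm_eq_abs, abs_of_pos (by positivity)]
      have h8 : 1 ≤ N2 (x - (t : ℂ) • (u • d)) := by
        refine le_trans ?_ ((c1 _).trans (c1 _) : N2 (a (a (x - (t : ℂ) • (u • d)))) ≤ _)
        refine le_trans (le_of_eq ?_) (c3 _)
        simp only [map_sub, map_smul, c4, c8, smul_zero, sub_zero, norm_one]
      have h9 : t * ‖w‖ ≤ C * ‖u • d‖ ^ 2 / 2 * t ^ 2 := by linarith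
      have h10 : t * ‖w‖ ≤ t * (C * ‖u • d‖ ^ 2 / 2 * t) := by
        calc t * ‖w‖ ≤ C * ‖u • d‖ ^ 2 / 2 * t ^ 2 := h9
          _ = t * (C * ‖u • d‖ ^ 2 / 2 * t) := by ring
      exact le_of_mul_le_mul_left h10 htpos'
    have h11 : Tendsto (fun t : ℝ => C * ‖u • d‖ ^ 2 / 2 * t) (𝓝[>] 0) (𝓝 0) := by
      have : Continuous (fun t : ℝ => C * ‖u • d‖ ^ 2 / 2 * t) := by fun_prop
      have h12 := this.tendsto 0
      rw [mul_zero] at h12
      exact h12.mono_left nhdsWithin_le_nhds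
    have h13 : ‖w‖ ≤ 0 := ge_of_tendsto h11 h4
    linarith
  -- `a d` is a flat direction at `a x`
  have hflat : ∀ᶠ t : ℝ in 𝓝 0, N2 (a x + (t : ℂ) • a d) ≤ 1 := by
    have hcont : Continuous (fun t : ℝ => a x + (t : ℂ) • a d) := by fun_prop
    have hlt : N1 (a x) < 1 := by
      obtain ⟨i, hi, h⟩ := hV1 _ c6
      exact h.trans_le (hx1 ▸ hle i hi _)
    have h3 : ∀ᶠ t : ℝ in 𝓝 0, N1 (a x + (t : ℂ) • a d) < 1 := by
      have h4 : Tendsto (fun t : ℝ => N1 (a x + (t : ℂ) • a d)) (𝓝 0) (𝓝 (N1 (a x))) := by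
        have h := (h1c.comp hcont).tendsto 0
        simp only [Function.comp_def, Complex.ofReal_zero, zero_smul, add_zero] at h
        exact h
      exact h4.eventually_lt tendsto_const_nhds hlt
    have h5 : ∀ᶠ t : ℝ in 𝓝 0, ∀ i ∈ T, ‖g i (a x + (t : ℂ) • a d)‖ ≤ 1 := by
      rw [Filter.eventually_all_finset]
      intro i hi
      by_cases hi1 : ‖g i (a x)‖ = 1
      · refine Eventually.of_forall fun t => ?_
        rw [map_add, map_smul, hact i hi hi1, smul_zero, add_zero, hi1]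
      · have hlt' : ‖g i (a x)‖ < 1 := lt_of_le_of_ne (hx1 ▸ hle i hi _) hi1
        have h4 : Tendsto (fun t : ℝ => ‖g i (a x + (t : ℂ) • a d)‖) (𝓝 0) (𝓝 ‖g i (a x)‖) := by
          have h := ((g i).continuous.norm.comp hcont).tendsto 0
          simp only [Function.comp_def, Complex.ofReal_zero, zero_smul, add_zero] at h
          exact h
        exact (h4.eventually_lt tendsto_const_nhds hlt').mono fun t ht => ht.le
    filter_upwards [h3, h5] with t h6 h7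
    exact hmax _ 1 h6.le h7
  -- conclusion by strict convexity
  have hneg : Tendsto (fun t : ℝ => -t) (𝓝 0) (𝓝 0) := by
    have : Continuous (fun t : ℝ => -t) := by fun_prop
    simpa using this.tendsto 0
  have hboth := (hflat.and (hneg.eventually hflat)).filter_mono
    (nhdsWithin_le_nhds (s := Set.Ioi (0 : ℝ)))
  obtain ⟨t, ⟨ht1, ht2⟩, htpos⟩ := (hboth.and self_mem_nhdsWithin).exists
  have htpos' : (0 : ℝ) < t := htpos
  have h3 : N1 (a (a x) + (t : ℂ) • a (a d)) ≤ 1 := by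
    refine (hle1 _).trans (le_trans ?_ ht1)
    have := c1 (a x + (t : ℂ) • a d)
    rwa [map_add, map_smul] at this
  have h4 : N1 (a (a x) - (t : ℂ) • a (a d)) ≤ 1 := by
    refine (hle1 _).trans (le_trans ?_ ht2)
    have h5 := c1 (a x + ((-t : ℝ) : ℂ) • a d)
    have h6 : a (a x + ((-t : ℝ) : ℂ) • a d) = a (a x) - (t : ℂ) • a (a d) := by
      rw [map_add, map_smul]
      push_cast
      rw [neg_smul, ← sub_eq_add_neg]
    rwa [h6] at h5
  have h5 : 1 ≤ N1 (a (a x)) := by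
    have h6 := hmax (a (a x)) (N1 (a (a x))) le_rfl (fun i hi => (hV2 _ c7 i hi).le)
    rwa [hx2'] at h6
  have h6 := hc (a (a x)) ((t : ℂ) • a (a d))
  have h7 : 0 ≤ N1 (a (a x) + (t : ℂ) • a (a d)) := h1.nonneg _
  have h8 : 0 ≤ N1 (a (a x) - (t : ℂ) • a (a d)) := h1.nonneg _
  have h9 : c' * ‖(t : ℂ) • a (a d)‖ ^ 2 ≤ 0 := by nlinarith
  have h10 : 0 < ‖(t : ℂ) • a (a d)‖ := by
    rw [norm_smul, Complex.norm_real, Real.norm_eq_abs, abs_of_pos htpos']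
    exact mul_pos htpos' (hcpos.trans_le c10)
  have h11 : 0 < c' * ‖(t : ℂ) • a (a d)‖ ^ 2 := by positivity
  linarith

/-- norming functionals (Hahn–Banach) -/
theorem exists_norming [FiniteDimensional ℂ E] {N : E → ℝ} (hN : IsSN N) (z : E) :
    ∃ φ : E →L[ℂ] ℂ, (∀ y, ‖φ y‖ ≤ N y) ∧ φ z = (N z : ℂ) := by
  by_cases hz : z = 0
  · refine ⟨0, fun y => ?_, ?_⟩
    · simpa using hN.nonneg y
    · simp [hz, hN.map_zero]
  · have h := Module.Dual.exists_extension_of_le_seminorm (𝕜 := ℂ) (Submodule.span ℂ {z})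
      ((N z : ℂ) • (LinearEquiv.coord ℂ E z hz : _ →ₗ[ℂ] ℂ)) (p := hN.toSeminorm) ?_
    · obtain ⟨φ, h1, h2⟩ := h
      refine ⟨LinearMap.toContinuousLinearMap φ, fun y => h2 y, ?_⟩
      have h3 := h1 ⟨z, Submodule.mem_span_singleton_self z⟩
      have h4 : (LinearEquiv.coord ℂ E z hz) ⟨z, Submodule.mem_span_singleton_self z⟩ = 1 :=
        LinearEquiv.coord_self ℂ E z hz
      simp only [LinearMap.coe_toContinuousLinearMap']
      rw [h3]
      simp [h4]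
    · rintro ⟨y, hy⟩
      obtain ⟨s, rfl⟩ := Submodule.mem_span_singleton.1 hy
      have h4 : (LinearEquiv.coord ℂ E z hz) ⟨s • z, hy⟩ = s := by
        have h5 : (⟨s • z, hy⟩ : Submodule.span ℂ {z}) =
          s • ⟨z, Submodule.mem_span_singleton_self z⟩ := rfl
        rw [h5, map_smul, LinearEquiv.coord_self, smul_eq_mul, mul_one]
      have h6 : hN.toSeminorm (s • z) = ‖s‖ * N z := hN.smul s z
      simp only [LinearMap.smul_apply, LinearEquiv.coe_coe, h4, smul_eq_mul, norm_mul,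
        Complex.norm_real, Real.norm_eq_abs, abs_of_nonneg (hN.nonneg z)]
      rw [h6]
      exact le_of_eq (mul_comm _ _)

/-- strict separation -/
theorem norming_lt {N1 : E → ℝ} (h1 : IsN N1) {c' : ℝ} (hc' : 0 < c')
    (hc : ∀ x e, c' * ‖e‖ ^ 2 ≤ N1 (x + e) ^ 2 + N1 (x - e) ^ 2 - 2 * N1 x ^ 2)
    {z y : E} (hzy : LinearIndependent ℂ ![y, z]) {φ : E →L[ℂ] ℂ} (hφ : ∀ w, ‖φ w‖ ≤ N1 w)
    (hz : φ z = (N1 z : ℂ)) : ‖φ y‖ < N1 y := by
  by_contra hcon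
  push Not at hcon
  have heq : ‖φ y‖ = N1 y := le_antisymm (hφ y) hcon
  have hz0 : z ≠ 0 := by
    have := hzy.ne_zero 1
    simpa using this
  have hy0 : y ≠ 0 := by
    have := hzy.ne_zero 0
    simpa using this
  have hNz := h1.pos hz0
  have hNy := h1.pos hy0
  have hφy : φ y ≠ 0 := by
    rw [← norm_pos_iff, heq]; exact hNy
  have hφz : φ z ≠ 0 := by
    rw [hz]; exact_mod_cast hNz.ne'
  set u := (φ z)⁻¹ • z with hu
  set v := (φ y)⁻¹ • y with hv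
  have hNu : N1 u = 1 := by
    rw [hu, h1.smul, hz, norm_inv, Complex.norm_real, Real.norm_eq_abs, abs_of_pos hNz,
      inv_mul_cancel₀ hNz.ne']
  have hNv : N1 v = 1 := by
    rw [hv, h1.smul, norm_inv, heq, inv_mul_cancel₀ hNy.ne']
  have hφu : φ u = 1 := by rw [hu, map_smul, smul_eq_mul, inv_mul_cancel₀ hφz]
  have hφv : φ v = 1 := by rw [hv, map_smul, smul_eq_mul, inv_mul_cancel₀ hφy]
  have h2 := hc ((2 : ℂ)⁻¹ • (u + v)) ((2 : ℂ)⁻¹ • (u - v))
  have h3 : (2 : ℂ)⁻¹ • (u + v) + (2 : ℂ)⁻¹ • (u - v) = u := by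
    rw [← smul_add, show u + v + (u - v) = (2 : ℂ) • u by rw [two_smul]; abel, smul_smul]
    norm_num
  have h4 : (2 : ℂ)⁻¹ • (u + v) - (2 : ℂ)⁻¹ • (u - v) = v := by
    rw [← smul_sub, show u + v - (u - v) = (2 : ℂ) • v by rw [two_smul]; abel, smul_smul]
    norm_num
  have h5 : 1 ≤ N1 ((2 : ℂ)⁻¹ • (u + v)) := by
    have h6 := hφ ((2 : ℂ)⁻¹ • (u + v))
    have h7 : φ ((2 : ℂ)⁻¹ • (u + v)) = 1 := by
      rw [map_smul, map_add, hφu, hφv, smul_eq_mul]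
      norm_num
    rwa [h7, norm_one] at h6
  rw [h3, h4, hNu, hNv] at h2
  have h6 : c' * ‖(2 : ℂ)⁻¹ • (u - v)‖ ^ 2 ≤ 0 := by nlinarith
  have h7 : ‖(2 : ℂ)⁻¹ • (u - v)‖ = 0 := by
    by_contra h8
    have h9 : 0 < ‖(2 : ℂ)⁻¹ • (u - v)‖ := lt_of_le_of_ne (norm_nonneg _) (Ne.symm h8)
    have h10 : 0 < c' * ‖(2 : ℂ)⁻¹ • (u - v)‖ ^ 2 := by positivity
    linarith
  rw [norm_eq_zero, smul_eq_zero] at h7
  rcases h7 with h7 | h7
  · norm_num at h7
  · rw [LinearIndependent.pair_iff] at hzy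
    have h8 := hzy (φ y)⁻¹ (-(φ z)⁻¹) (by
      rw [neg_smul, ← sub_eq_add_neg]
      have : v - u = 0 := by rw [← neg_sub, h7, neg_zero]
      exact this)
    exact inv_ne_zero hφy h8.1

/-- adding finitely many functionals to a norm -/
theorem exists_max {ι : Type*} {N1 : E → ℝ} (h1 : IsSN N1) (T : Finset ι)
    (g : ι → E →L[ℂ] ℂ) : ∃ N2 : E → ℝ, IsSN N2 ∧ (∀ i ∈ T, ∀ x, ‖g i x‖ ≤ N2 x) ∧
      (∀ x, N1 x ≤ N2 x) ∧ ∀ x r, N1 x ≤ r → (∀ i ∈ T, ‖g i x‖ ≤ r) → N2 x ≤ r := by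
  set N2 : E → ℝ := fun x => max (N1 x) ((T.sup fun i => ‖g i x‖₊ : NNReal) : ℝ) with hN2
  have hle : ∀ i ∈ T, ∀ x, ‖g i x‖ ≤ N2 x := by
    intro i hi x
    refine le_trans ?_ (le_max_right _ _)
    have : ‖g i x‖₊ ≤ T.sup fun i => ‖g i x‖₊ := Finset.le_sup (f := fun i => ‖g i x‖₊) hi
    exact_mod_cast this
  have hle1 : ∀ x, N1 x ≤ N2 x := fun x => le_max_left _ _
  have hmax : ∀ x r, N1 x ≤ r → (∀ i ∈ T, ‖g i x‖ ≤ r) → N2 x ≤ r := by
    intro x r hr hT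
    refine max_le hr ?_
    have hr0 : 0 ≤ r := (h1.nonneg x).trans hr
    lift r to NNReal using hr0
    have : (T.sup fun i => ‖g i x‖₊) ≤ r := Finset.sup_le fun i hi => by exact_mod_cast hT i hi
    exact_mod_cast this
  have hsm : ∀ (c : ℂ) x, c ≠ 0 → N2 (c • x) ≤ ‖c‖ * N2 x := by
    intro c x _
    refine hmax _ _ ?_ fun i hi => ?_
    · rw [h1.smul]
      gcongr
      exact hle1 x
    · rw [map_smul, smul_eq_mul, norm_mul]
      gcongr
      exact hle i hi x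
  refine ⟨N2, ⟨?_, ?_⟩, hle, hle1, hmax⟩
  · intro x y
    refine hmax _ _ ((h1.add_le x y).trans (add_le_add (hle1 x) (hle1 y))) fun i hi => ?_
    rw [map_add]
    exact (norm_add_le _ _).trans (add_le_add (hle i hi x) (hle i hi y))
  · intro c x
    by_cases hc : c = 0
    · subst hc
      have h3 : N2 0 ≤ 0 := hmax 0 0 (h1.map_zero).le (fun i _ => by simp)
      have h4 : 0 ≤ N2 0 := (h1.nonneg 0).trans (hle1 0)
      simp only [zero_smul, norm_zero, zero_mul]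
      linarith
    · refine le_antisymm (hsm c x hc) ?_
      have h3 := hsm c⁻¹ (c • x) (inv_ne_zero hc)
      rw [smul_smul, inv_mul_cancel₀ hc, one_smul, norm_inv] at h3
      rwa [le_inv_mul_iff₀ (norm_pos_iff.2 hc)] at h3

end Pool.Agent.Helper78.CE
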