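import Pool.Agent.Helper78.CE.Local

set_option autoImplicit false

/-!
MP_c5257f_an, part 4: density of the norms that are not bad, and the Baire category argument.
-/

namespace Pool.Agent.Helper78.CE

open Filter Topology Metric

variable {E : Type*} [NormedAddCommGroup E] [InnerProductSpace ℂ E]

theorem exists_near [FiniteDimensional ℂ E] {N : E → ℝ} (hN : IsN N) {V0 V1 V2 : Set E}
    (k0 : IsCompact V0) (k1 : IsCompact V1) (k2 : IsCompact V2) (hz : (0 : E) ∉ V1)
    (i0 : ∀ x ∈ V0, ∀ z ∈ V1, LinearIndependent ℂ ![x, z])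
    (i2 : ∀ x ∈ V2, ∀ z ∈ V1, LinearIndependent ℂ ![x, z]) {c ε : ℝ} (hc : 0 < c) (hε : 0 < ε) :
    ∃ N' : E → ℝ, IsN N' ∧ (∀ x, |N' x - N x| ≤ ε * ‖x‖) ∧ ¬ Bad V0 V1 V2 c N' := by
  have : ProperSpace E := FiniteDimensional.proper ℂ E
  have : ProperSpace (E →L[ℂ] ℂ) := FiniteDimensional.proper ℂ _
  set δ := min ε 1 with hδ
  have hδ0 : 0 < δ := lt_min hε one_pos
  have hδε : δ ≤ ε := min_le_left _ _
  have hδ1 : δ ≤ 1 := min_le_right _ _
  -- move into the interior
  set N' : E → ℝ := fun x => (1 - δ) * N x + δ * (3 / 2 * ‖x‖) with hN'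
  have hN'S : IsSN N' := by
    constructor
    · intro x y
      have h1 := hN.add_le x y
      have h2 := norm_add_le x y
      have h3 : (1 - δ) * N (x + y) ≤ (1 - δ) * (N x + N y) := by
        apply mul_le_mul_of_nonneg_left h1; linarith
      have h4 : δ * (3 / 2 * ‖x + y‖) ≤ δ * (3 / 2 * (‖x‖ + ‖y‖)) := by gcongr
      simp only [hN']
      linarith
    · intro s x
      simp only [hN', hN.smul, norm_smul]
      ring
  have hlow : ∀ x, (1 + δ / 2) * ‖x‖ ≤ N' x := by
    intro x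
    have h1 : (1 - δ) * ‖x‖ ≤ (1 - δ) * N x :=
      mul_le_mul_of_nonneg_left (hN.lower x) (by linarith)
    simp only [hN']
    linarith
  have hupp : ∀ x, N' x ≤ (2 - δ / 2) * ‖x‖ := by
    intro x
    have h1 : (1 - δ) * N x ≤ (1 - δ) * (2 * ‖x‖) :=
      mul_le_mul_of_nonneg_left (hN.upper x) (by linarith)
    simp only [hN']
    linarith
  have hdist : ∀ x, |N' x - N x| ≤ δ / 2 * ‖x‖ := by
    intro x
    have h1 : N' x - N x = δ * (3 / 2 * ‖x‖ - N x) := by simp only [hN']; ring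
    rw [h1, abs_mul, abs_of_pos hδ0]
    have h2 : |3 / 2 * ‖x‖ - N x| ≤ 1 / 2 * ‖x‖ := by
      rw [abs_le]
      constructor <;> linarith [hN.lower x, hN.upper x]
    calc δ * |3 / 2 * ‖x‖ - N x| ≤ δ * (1 / 2 * ‖x‖) := by gcongr
      _ = δ / 2 * ‖x‖ := by ring
  have hN'N : IsN N' := by
    refine ⟨hN'S, fun x => ?_, fun x => ?_⟩
    · have := hlow x
      have h0 := norm_nonneg x
      nlinarith
    · have := hupp x
      have h0 := norm_nonneg x
      nlinarith
  obtain ⟨N1, h1S, h1d, ⟨C, hC⟩, c', hc', hcc⟩ := exists_smooth hN'N (ε := δ / 4) (by positivity)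
  have h1low : ∀ x, (1 + δ / 4) * ‖x‖ ≤ N1 x := by
    intro x
    have h3 := (abs_le.1 (h1d x)).1
    have := hlow x
    linarith
  have h1upp : ∀ x, N1 x ≤ (2 - δ / 4) * ‖x‖ := by
    intro x
    have h3 := (abs_le.1 (h1d x)).2
    have := hupp x
    linarith
  have h1N : IsN N1 := by
    refine ⟨h1S, fun x => ?_, fun x => ?_⟩
    · have := h1low x
      have h0 := norm_nonneg x
      nlinarith
    · have := h1upp x
      have h0 := norm_nonneg x
      nlinarith
  have h1c := h1N.continuous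
  -- uniform separation
  have hkk : IsCompact (V0 ∪ V2) := k0.union k2
  have ii : ∀ x ∈ V0 ∪ V2, ∀ z ∈ V1, LinearIndependent ℂ ![x, z] := by
    rintro x (hx | hx) z hzz
    · exact i0 x hx z hzz
    · exact i2 x hx z hzz
  set Θ : Set (E × (E →L[ℂ] ℂ) × E) :=
    (V1 ×ˢ closedBall 0 2 ×ˢ (V0 ∪ V2)) ∩
      ((⋂ w : E, {p | ‖p.2.1 w‖ ≤ N1 w}) ∩ {p | p.2.1 p.1 = (N1 p.1 : ℂ)}) with hΘ
  have hΘc : IsCompact Θ := by
    refine (k1.prod ((isCompact_closedBall _ _).prod hkk)).inter_right (IsClosed.inter ?_ ?_)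
    · refine isClosed_iInter fun w => ?_
      have h3 : Continuous (fun p : E × (E →L[ℂ] ℂ) × E => p.2.1) := by fun_prop
      exact isClosed_le (h3.clm_apply continuous_const).norm continuous_const
    · have h3 : Continuous (fun p : E × (E →L[ℂ] ℂ) × E => p.2.1) := by fun_prop
      exact isClosed_eq (h3.clm_apply continuous_fst)
        (Complex.continuous_ofReal.comp (h1c.comp continuous_fst))
  obtain ⟨β, hβ, hβΘ⟩ : ∃ β : ℝ, 0 < β ∧ ∀ p ∈ Θ, β ≤ N1 p.2.2 - ‖p.2.1 p.2.2‖ := by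
    refine hΘc.exists_forall_le' ?_ ?_
    · have h3 : Continuous (fun p : E × (E →L[ℂ] ℂ) × E => p.2.1) := by fun_prop
      have h4 : Continuous (fun p : E × (E →L[ℂ] ℂ) × E => p.2.2) := by fun_prop
      exact ((h1c.comp h4).sub (h3.clm_apply h4).norm).continuousOn
    · rintro ⟨z, φ, y⟩ ⟨⟨hz1, _, hy⟩, hφ, hφz⟩
      simp only [Set.mem_iInter, Set.mem_ofPred_eq] at hφ hφz
      have := norming_lt h1N hc' hcc (ii y hy z hz1) hφ hφz
      simp only
      linarith
  obtain ⟨R, hR0, hR⟩ : ∃ R : ℝ, 0 < R ∧ ∀ y ∈ V0 ∪ V2, N1 y ≤ R := by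
    obtain ⟨R, hR⟩ := hkk.bddAbove_image (f := N1) h1c.continuousOn
    refine ⟨max R 1, by positivity, fun y hy => ?_⟩
    exact (hR ⟨y, hy, rfl⟩).trans (le_max_left _ _)
  set η := min (δ / 8) (β / (2 * R)) with hη
  have hη0 : 0 < η := lt_min (by positivity) (by positivity)
  have hη1 : η ≤ δ / 8 := min_le_left _ _
  have hη2 : η ≤ β / (2 * R) := min_le_right _ _
  choose φ hφ1 hφ2 using fun z : E => exists_norming h1S z
  obtain ⟨T, hT, hcov⟩ := k1.elim_nhds_subcover (fun z => {y | N1 y < (1 + η) * ‖φ z y‖}) (by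
    intro z hz1
    have hz0 : z ≠ 0 := fun h => hz (h ▸ hz1)
    have h3 : IsOpen {y | N1 y < (1 + η) * ‖φ z y‖} :=
      isOpen_lt h1c (continuous_const.mul (φ z).continuous.norm)
    refine h3.mem_nhds ?_
    have h4 := h1N.pos hz0
    simp only [Set.mem_ofPred_eq, hφ2 z, Complex.norm_real, Real.norm_eq_abs, abs_of_pos h4]
    nlinarith)
  set g : E → E →L[ℂ] ℂ := fun z => ((1 + η : ℝ) : ℂ) • φ z with hg
  have hgn : ∀ z y, ‖g z y‖ = (1 + η) * ‖φ z y‖ := by
    intro z y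
    simp only [hg, _root_.smul_apply, smul_eq_mul, norm_mul, Complex.norm_real,
      Real.norm_eq_abs, abs_of_pos (show (0 : ℝ) < 1 + η by positivity)]
  obtain ⟨N2, h2S, hle, hle1, hmax⟩ := exists_max h1S T g
  have h2le : ∀ x, N2 x ≤ N1 x + δ / 4 * ‖x‖ := by
    intro x
    have h3 := h1N.upper x
    have h0 := norm_nonneg x
    have h5 : η * N1 x ≤ δ / 8 * (2 * ‖x‖) := by
      have := h1S.nonneg x
      gcongr
    refine hmax _ _ (le_add_of_nonneg_right (by positivity)) fun z _ => ?_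
    rw [hgn]
    have h4 := hφ1 z x
    calc (1 + η) * ‖φ z x‖ ≤ (1 + η) * N1 x := by gcongr
      _ = N1 x + η * N1 x := by ring
      _ ≤ N1 x + δ / 8 * (2 * ‖x‖) := by linarith
      _ = N1 x + δ / 4 * ‖x‖ := by ring
  have h2N : IsN N2 := by
    refine ⟨h2S, fun x => ?_, fun x => ?_⟩
    · exact (h1N.lower x).trans (hle1 x)
    · have h3 := h2le x
      have h4 := h1upp x
      linarith
  refine ⟨N2, h2N, fun x => ?_, ?_⟩
  · have h3 := abs_le.1 (hdist x)
    have h4 := abs_le.1 (h1d x)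
    have h5 := hle1 x
    have h6 := h2le x
    have h7 : δ * ‖x‖ ≤ ε * ‖x‖ := by gcongr
    rw [abs_le]
    constructor
    · linarith [h3.1, h4.1]
    · linarith [h3.2, h4.2]
  · have hsep : ∀ x ∈ V0 ∪ V2, ∀ z ∈ T, ‖g z x‖ < N1 x := by
      intro x hx z hzT
      rw [hgn]
      have hmem : (z, φ z, x) ∈ Θ := by
        refine ⟨⟨hT z hzT, ?_, hx⟩, ?_, ?_⟩
        · rw [mem_closedBall_zero_iff]
          exact ContinuousLinearMap.opNorm_le_bound _ (by norm_num)
            fun y => (hφ1 z y).trans (h1N.upper y)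
        · simp only [Set.mem_iInter, Set.mem_ofPred_eq]
          exact hφ1 z
        · simp only [Set.mem_ofPred_eq]
          exact hφ2 z
      have h3 := hβΘ _ hmem
      simp only at h3
      have h4 : η * ‖φ z x‖ ≤ β / (2 * R) * R := by
        have h5 : ‖φ z x‖ ≤ R := (hφ1 z x).trans (hR x hx)
        gcongr
      have h6 : β / (2 * R) * R = β / 2 := by field_simp
      linarith
    refine not_bad h1S h1c h2N hC hc' hcc T g hle hle1 hmax
      (fun x hx => hsep x (Or.inl hx)) (fun x hx => hsep x (Or.inr hx)) ?_ hc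
    intro x hx
    have h3 := hcov hx
    simp only [Set.mem_iUnion, Set.mem_ofPred_eq] at h3
    obtain ⟨z, hzT, h4⟩ := h3
    refine ⟨z, hzT, ?_⟩
    rw [hgn]
    exact h4

end Pool.Agent.Helper78.CE
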