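import Pool.Agent.Helper78.CE.Basic

set_option autoImplicit false

/-!
MP_c5257f_an, part 2: norms whose square has second differences between two positive multiples of
`‖e‖²` are dense.
-/

namespace Pool.Agent.Helper78.CE

open Filter Topology Metric

variable {E : Type*} [NormedAddCommGroup E] [InnerProductSpace ℂ E]

theorem sqrt_add_le {a b c d : ℝ} : √((a + c) ^ 2 + (b + d) ^ 2) ≤ √(a ^ 2 + b ^ 2) + √(c ^ 2 + d ^ 2) := by
  have h := norm_add_le ((a : ℂ) + b * Complex.I) ((c : ℂ) + d * Complex.I)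
  rw [Complex.norm_add_mul_I, Complex.norm_add_mul_I] at h
  have h2 : ((a : ℂ) + b * Complex.I) + ((c : ℂ) + d * Complex.I) =
      ((a + c : ℝ) : ℂ) + ((b + d : ℝ) : ℂ) * Complex.I := by
    push_cast
    ring
  rw [h2, Complex.norm_add_mul_I] at h
  exact h

theorem sqrt_mono {a b c d : ℝ} (ha : 0 ≤ a) (hb : 0 ≤ b) (hac : a ≤ c) (hbd : b ≤ d) :
    √(a ^ 2 + b ^ 2) ≤ √(c ^ 2 + d ^ 2) := by
  apply Real.sqrt_le_sqrt
  gcongr

/-- the two-norm sum of two seminorms -/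
theorem isSN_sqrt {p q : E → ℝ} (hp : IsSN p) (hq : IsSN q) :
    IsSN (fun x => √(p x ^ 2 + q x ^ 2)) := by
  constructor
  · intro x y
    exact (sqrt_mono (hp.nonneg _) (hq.nonneg _) (hp.add_le x y) (hq.add_le x y)).trans sqrt_add_le
  · intro c x
    simp only [hp.smul, hq.smul]
    rw [show (‖c‖ * p x) ^ 2 + (‖c‖ * q x) ^ 2 = ‖c‖ ^ 2 * (p x ^ 2 + q x ^ 2) by ring,
      Real.sqrt_mul (by positivity), Real.sqrt_sq (norm_nonneg c)]

theorem isSN_norm (s : ℝ) (hs : 0 ≤ s) : IsSN (fun x : E => s * ‖x‖) := by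
  constructor
  · intro x y
    rw [← mul_add]
    gcongr
    exact norm_add_le x y
  · intro c x
    rw [norm_smul]
    ring

/-- the infimal convolution -/
noncomputable def conv (N : E → ℝ) (k : ℝ) (x : E) : ℝ :=
  ⨅ y : E, √(N (x - y) ^ 2 + (k * ‖y‖) ^ 2)

omit [InnerProductSpace ℂ E] in
theorem conv_bdd (N : E → ℝ) (k : ℝ) (x : E) :
    BddBelow (Set.range fun y : E => √(N (x - y) ^ 2 + (k * ‖y‖) ^ 2)) :=
  ⟨0, by rintro _ ⟨y, rfl⟩; exact Real.sqrt_nonneg _⟩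

omit [InnerProductSpace ℂ E] in
theorem conv_le (N : E → ℝ) (k : ℝ) (x y : E) :
    conv N k x ≤ √(N (x - y) ^ 2 + (k * ‖y‖) ^ 2) :=
  ciInf_le (conv_bdd N k x) y

omit [InnerProductSpace ℂ E] in
theorem conv_nonneg (N : E → ℝ) (k : ℝ) (x : E) : 0 ≤ conv N k x :=
  le_ciInf fun _ => Real.sqrt_nonneg _

theorem conv_le_self {N : E → ℝ} (hN : IsSN N) (k : ℝ) (x : E) : conv N k x ≤ N x := by
  have h := conv_le N k x 0
  simpa [Real.sqrt_sq (hN.nonneg x)] using h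

theorem isSN_conv {N : E → ℝ} (hN : IsSN N) {k : ℝ} (hk : 0 ≤ k) : IsSN (conv N k) := by
  have hadd : ∀ x y, conv N k (x + y) ≤ conv N k x + conv N k y := by
    intro x x'
    have h1 : ∀ y y' : E, conv N k (x + x') ≤
        √(N (x - y) ^ 2 + (k * ‖y‖) ^ 2) + √(N (x' - y') ^ 2 + (k * ‖y'‖) ^ 2) := by
      intro y y'
      refine (conv_le N k (x + x') (y + y')).trans ?_
      refine (sqrt_mono (c := N (x - y) + N (x' - y')) (d := k * ‖y‖ + k * ‖y'‖)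
        (hN.nonneg _) (by positivity) ?_ ?_).trans sqrt_add_le
      · rw [add_sub_add_comm]
        exact hN.add_le _ _
      · rw [← mul_add]
        gcongr
        exact norm_add_le _ _
    have h2 : ∀ y : E, conv N k (x + x') - conv N k x' ≤ √(N (x - y) ^ 2 + (k * ‖y‖) ^ 2) := by
      intro y
      have h3 : conv N k (x + x') - √(N (x - y) ^ 2 + (k * ‖y‖) ^ 2) ≤ conv N k x' :=
        le_ciInf fun y' => by linarith [h1 y y']
      linarith
    have h4 : conv N k (x + x') - conv N k x' ≤ conv N k x := le_ciInf h2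
    linarith
  have hsm : ∀ (c : ℂ) x, c ≠ 0 → conv N k (c • x) ≤ ‖c‖ * conv N k x := by
    intro c x hc
    have hc' : 0 < ‖c‖ := norm_pos_iff.2 hc
    have h1 : ∀ y : E, ‖c‖⁻¹ * conv N k (c • x) ≤ √(N (x - y) ^ 2 + (k * ‖y‖) ^ 2) := by
      intro y
      have h2 := conv_le N k (c • x) (c • y)
      rw [← smul_sub, hN.smul, norm_smul,
        show (‖c‖ * N (x - y)) ^ 2 + (k * (‖c‖ * ‖y‖)) ^ 2 =
          ‖c‖ ^ 2 * (N (x - y) ^ 2 + (k * ‖y‖) ^ 2) by ring,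
        Real.sqrt_mul (by positivity), Real.sqrt_sq hc'.le] at h2
      rw [inv_mul_le_iff₀ hc']
      exact h2
    have h3 : ‖c‖⁻¹ * conv N k (c • x) ≤ conv N k x := le_ciInf h1
    rwa [inv_mul_le_iff₀ hc'] at h3
  refine ⟨hadd, ?_⟩
  intro c x
  by_cases hc : c = 0
  · subst hc
    have h1 := conv_le_self hN k (0 : E)
    rw [hN.map_zero] at h1
    have h2 := conv_nonneg N k (0 : E)
    simp only [zero_smul, norm_zero, zero_mul]
    linarith
  · refine le_antisymm (hsm c x hc) ?_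
    have h1 := hsm c⁻¹ (c • x) (inv_ne_zero hc)
    rw [smul_smul, inv_mul_cancel₀ hc, one_smul, norm_inv] at h1
    rwa [le_inv_mul_iff₀ (norm_pos_iff.2 hc)] at h1

theorem le_conv {N : E → ℝ} (hN : IsN N) {k : ℝ} (hk : 0 < k) (x : E) :
    N x ≤ (1 + 2 / k ^ 2) * conv N k x := by
  have hc : 0 < 1 + 2 / k ^ 2 := by positivity
  have h1 : ∀ y : E, (1 + 2 / k ^ 2)⁻¹ * N x ≤ √(N (x - y) ^ 2 + (k * ‖y‖) ^ 2) := by
    intro y
    rw [inv_mul_le_iff₀ hc]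
    have h2 : N x ≤ N (x - y) + 2 * ‖y‖ := by
      have h3 := hN.add_le (x - y) y
      rw [sub_add_cancel] at h3
      linarith [hN.upper y]
    have h5 : (N (x - y) + 2 * ‖y‖) ^ 2 ≤
        ((1 + 2 / k ^ 2) * √(N (x - y) ^ 2 + (k * ‖y‖) ^ 2)) ^ 2 := by
      rw [mul_pow, Real.sq_sqrt (by positivity)]
      have h6 : (1 + 4 / k ^ 2) * (N (x - y) ^ 2 + (k * ‖y‖) ^ 2) -
          (N (x - y) + 2 * ‖y‖) ^ 2 = (2 / k * N (x - y) - k * ‖y‖) ^ 2 := by
        field_simp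
        ring
      have h7 : (1 + 4 / k ^ 2) ≤ (1 + 2 / k ^ 2) ^ 2 := by
        have h10 : 0 ≤ (2 / k ^ 2) ^ 2 := by positivity
        have h11 : (1 + 2 / k ^ 2) ^ 2 = 1 + 4 / k ^ 2 + (2 / k ^ 2) ^ 2 := by ring
        linarith
      have h8 : 0 ≤ (2 / k * N (x - y) - k * ‖y‖) ^ 2 := by positivity
      have h9 : (1 + 4 / k ^ 2) * (N (x - y) ^ 2 + (k * ‖y‖) ^ 2) ≤
          (1 + 2 / k ^ 2) ^ 2 * (N (x - y) ^ 2 + (k * ‖y‖) ^ 2) := by
        gcongr
      linarith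
    exact h2.trans (abs_le_of_sq_le_sq' h5 (by positivity)).2
  have h2 : (1 + 2 / k ^ 2)⁻¹ * N x ≤ conv N k x := le_ciInf h1
  rwa [inv_mul_le_iff₀ hc] at h2

theorem conv_second {N : E → ℝ} {k : ℝ} (x e : E) :
    conv N k (x + e) ^ 2 + conv N k (x - e) ^ 2 - 2 * conv N k x ^ 2 ≤ 2 * k ^ 2 * ‖e‖ ^ 2 := by
  set B := (conv N k (x + e) ^ 2 + conv N k (x - e) ^ 2 - 2 * k ^ 2 * ‖e‖ ^ 2) / 2 with hB
  suffices h : B ≤ conv N k x ^ 2 by linarith
  by_cases hB0 : B ≤ 0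
  · exact hB0.trans (by positivity)
  · push Not at hB0
    have h1 : ∀ y : E, √B ≤ √(N (x - y) ^ 2 + (k * ‖y‖) ^ 2) := by
      intro y
      apply Real.sqrt_le_sqrt
      have h2 := conv_le N k (x + e) (y + e)
      have h3 := conv_le N k (x - e) (y - e)
      rw [show x + e - (y + e) = x - y by abel] at h2
      rw [show x - e - (y - e) = x - y by abel] at h3
      have h4 := pow_le_pow_left₀ (conv_nonneg N k (x + e)) h2 2
      have h5 := pow_le_pow_left₀ (conv_nonneg N k (x - e)) h3 2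
      rw [Real.sq_sqrt (by positivity)] at h4 h5
      have h6 := parallelogram_law_with_norm ℂ y e
      have h7 : (k * ‖y + e‖) ^ 2 + (k * ‖y - e‖) ^ 2 = 2 * (k * ‖y‖) ^ 2 + 2 * k ^ 2 * ‖e‖ ^ 2 := by
        linear_combination (k ^ 2) * h6
      linarith
    have h2 : √B ≤ conv N k x := le_ciInf h1
    have h3 := pow_le_pow_left₀ (Real.sqrt_nonneg B) h2 2
    rwa [Real.sq_sqrt hB0.le] at h3

theorem exists_smooth {N : E → ℝ} (hN : IsN N) {ε : ℝ} (hε : 0 < ε) :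
    ∃ N1 : E → ℝ, IsSN N1 ∧ (∀ x, |N1 x - N x| ≤ ε * ‖x‖) ∧
      (∃ C, ∀ x e, N1 (x + e) ^ 2 + N1 (x - e) ^ 2 - 2 * N1 x ^ 2 ≤ C * ‖e‖ ^ 2) ∧
      ∃ c, 0 < c ∧ ∀ x e, c * ‖e‖ ^ 2 ≤ N1 (x + e) ^ 2 + N1 (x - e) ^ 2 - 2 * N1 x ^ 2 := by
  set k := √(4 / ε) with hk
  have hk2 : k ^ 2 = 4 / ε := Real.sq_sqrt (by positivity)
  have hk0 : 0 < k := Real.sqrt_pos.2 (by positivity)
  have hq := isSN_conv hN.toIsSN hk0.le
  have h1 : IsSN (fun x : E => √(conv N k x ^ 2 + (ε * ‖x‖) ^ 2)) :=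
    isSN_sqrt hq (isSN_norm ε hε.le)
  have hsq : ∀ x : E, √(conv N k x ^ 2 + (ε * ‖x‖) ^ 2) ^ 2 = conv N k x ^ 2 + (ε * ‖x‖) ^ 2 :=
    fun x => Real.sq_sqrt (by positivity)
  refine ⟨_, h1, ?_, ?_, ?_⟩
  · intro x
    have h2 := conv_le_self hN.toIsSN k x
    have h3 := le_conv hN hk0 x
    have h0 := conv_nonneg N k x
    have h4 : conv N k x ≤ √(conv N k x ^ 2 + (ε * ‖x‖) ^ 2) := by
      conv_lhs => rw [← Real.sqrt_sq h0]
      apply Real.sqrt_le_sqrt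
      nlinarith [sq_nonneg (ε * ‖x‖)]
    have h5 : √(conv N k x ^ 2 + (ε * ‖x‖) ^ 2) ≤ conv N k x + ε * ‖x‖ := by
      rw [Real.sqrt_le_left (by positivity)]
      have : 0 ≤ conv N k x * (ε * ‖x‖) := by positivity
      nlinarith [this]
    have h6 : (2 / k ^ 2) * conv N k x ≤ ε * ‖x‖ := by
      rw [hk2]
      have h7 : conv N k x ≤ 2 * ‖x‖ := h2.trans (hN.upper x)
      calc 2 / (4 / ε) * conv N k x ≤ 2 / (4 / ε) * (2 * ‖x‖) := by gcongr
        _ = ε * ‖x‖ := by field_simp; ring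
    rw [abs_le]
    constructor
    · nlinarith
    · linarith
  · refine ⟨2 * k ^ 2 + 2 * ε ^ 2, fun x e => ?_⟩
    simp only [hsq]
    have h2 := conv_second (N := N) (k := k) x e
    have h3 := parallelogram_law_with_norm ℂ x e
    have h4 : (ε * ‖x + e‖) ^ 2 + (ε * ‖x - e‖) ^ 2 - 2 * (ε * ‖x‖) ^ 2 = 2 * ε ^ 2 * ‖e‖ ^ 2 := by
      linear_combination (ε ^ 2) * h3
    linarith
  · refine ⟨2 * ε ^ 2, by positivity, fun x e => ?_⟩
    simp only [hsq]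
    have h3 := parallelogram_law_with_norm ℂ x e
    have h4 : (ε * ‖x + e‖) ^ 2 + (ε * ‖x - e‖) ^ 2 - 2 * (ε * ‖x‖) ^ 2 = 2 * ε ^ 2 * ‖e‖ ^ 2 := by
      linear_combination (ε ^ 2) * h3
    have h5 : 2 * conv N k x ≤ conv N k (x + e) + conv N k (x - e) := by
      have h6 := hq.add_le (x + e) (x - e)
      rw [show x + e + (x - e) = (2 : ℂ) • x by rw [two_smul]; abel, hq.smul] at h6
      simpa using h6
    have h0 := conv_nonneg N k x
    have h01 := conv_nonneg N k (x + e)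
    have h02 := conv_nonneg N k (x - e)
    have h6 : 2 * conv N k x ^ 2 ≤ conv N k (x + e) ^ 2 + conv N k (x - e) ^ 2 := by
      nlinarith [sq_nonneg (conv N k (x + e) - conv N k (x - e))]
    linarith

end Pool.Agent.Helper78.CE
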